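import Pool.Agent.Helper74.LL.GoalsG

/-!
# Project LL (MP_cc6379_al), packet K1: the key lemma on descents and its consequences
-/

set_option autoImplicit false

open Pool.Agent.Helper15.RA Pool.Agent.Helper45.AM

namespace Pool.Agent.Helper16.LL.K1

open Pool.Agent.Helper74.LL

section aux

variable {S W : Type} [Group W] {M : CoxeterMatrix S} (cs : CoxeterSystem M W)

/-- The facts on pairs of right descents which are used. -/
structure RR : Prop where
  mat : ∀ i j k, M i j = 2 → M i k = 2 → j = k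
  r1 : ∀ i j w, i ≠ j → cs.IsRightDescent w i → cs.IsRightDescent w j →
    cs.IsRightDescent (w * cs.simple i) j
  r2 : ∀ i j w, i ≠ j → M i j ≠ 2 → cs.IsRightDescent w i → cs.IsRightDescent w j →
    cs.IsRightDescent (w * cs.simple i * cs.simple j) i
  r3 : ∀ i j w, i ≠ j → M i j ≠ 2 → cs.IsRightDescent w i → cs.IsRightDescent w j →
    cs.IsRightDescent (w * cs.simple i * cs.simple j * cs.simple i) j
  r4 : ∀ i j w, i ≠ j → M i j ≠ 2 → cs.IsRightDescent w i → cs.IsRightDescent w j →
    cs.IsRightDescent (w * cs.simple i * cs.simple j * cs.simple i * cs.simple j) i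

variable {cs}

theorem RR.k1 (h : RR cs) : ∀ (n : ℕ) (w : W) (a b c : S), cs.length w = n → a ≠ b → a ≠ c →
    b ≠ c → cs.IsRightDescent w a → cs.IsRightDescent w b →
    cs.IsRightDescent (w * cs.simple a) b → cs.IsRightDescent (w * cs.simple a) c →
    M a b = 2 := by
  intro n
  induction n using Nat.strong_induction_on with
  | _ n ih =>
    intro w a b c hn hab hac hbc ha hb hab' hac'
    by_contra hM
    have l1 : cs.length (w * cs.simple a) < n := hn ▸ ha
    have h1 : cs.IsRightDescent (w * cs.simple a * cs.simple b) a := h.r2 a b w hab hM ha hb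
    have h2 : cs.IsRightDescent (w * cs.simple a * cs.simple b) c := h.r1 b c _ hbc hab' hac'
    by_cases hbc2 : M b c = 2
    · have hac2 : M a c ≠ 2 := by
        intro h0
        rw [M.symmetric] at h0 hbc2
        exact hab (h.mat c a b h0 hbc2)
      have l2 : cs.length (w * cs.simple a * cs.simple b) < n := lt_trans hab' l1
      exact hac2 (ih _ l2 (w * cs.simple a * cs.simple b) a c b rfl hac hab hbc.symm h1 h2
        (h.r1 a c _ hac h1 h2) (h.r3 a b w hab hM ha hb))
    · exact hbc2 (ih _ l1 (w * cs.simple a) b c a rfl hbc hab.symm hac.symm hab' hac' h2 h1)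

theorem RR.t3 (h : RR cs) (w : W) (a b c : S) (hab : a ≠ b) (hac : a ≠ c) (hbc : b ≠ c)
    (ha : cs.IsRightDescent w a) (hb : cs.IsRightDescent w b) : ¬ cs.IsRightDescent w c := by
  intro hc
  -- one generator which commutes with none of the others gives a contradiction
  have key : ∀ p q r : S, p ≠ q → p ≠ r → q ≠ r → cs.IsRightDescent w p →
      cs.IsRightDescent w q → cs.IsRightDescent w r → M p q ≠ 2 → False := by
    intro p q r hpq hpr hqr hp hq hr hM
    exact hM (h.k1 _ w p q r rfl hpq hpr hqr hp hq (h.r1 p q w hpq hp hq) (h.r1 p r w hpr hp hr))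
  by_cases h1 : M a b = 2
  · have h2 : M a c ≠ 2 := fun h0 => hbc (h.mat a b c h1 h0)
    exact key a c b hac hab hbc.symm ha hc hb h2
  · exact key a b c hab hac hbc ha hb hc h1

theorem RR.cl1 (h : RR cs) (w : W) (a b c : S) (hca : c ≠ a) (hcb : c ≠ b)
    (ha : cs.IsRightDescent w a) (hb : cs.IsRightDescent (w * cs.simple a) b)
    (hc : cs.IsRightDescent w c) : M a c = 2 := by
  have hab : a ≠ b := by
    rintro rfl
    exact (cs.isRightDescent_iff_not_isRightDescent_mul.1 ha) hb
  exact h.k1 _ w a c b rfl hca.symm hab hcb ha hc (h.r1 a c w hca.symm ha hc) hb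

theorem RR.sz_aux (h : RR cs) (w : W) (p q b : S) (hpq : p ≠ q) (hbp : b ≠ p) (hbq : b ≠ q)
    (h1 : cs.IsRightDescent w p) (h2 : cs.IsRightDescent (w * cs.simple p) q)
    (h3 : cs.IsRightDescent (w * cs.simple p * cs.simple q) p) (hb : cs.IsRightDescent w b) :
    False := by
  have e1 := h.cl1 w p q b hbp hbq h1 h2 hb
  have hb2 := h.r1 p b w hbp.symm h1 hb
  have e2 := h.cl1 _ q p b hbq hbp h2 h3 hb2
  rw [M.symmetric] at e1 e2
  exact hpq (h.mat b p q e1 e2)

theorem RR.car (h : RR cs) (a b c : S) (u : W) (hab : a ≠ b) (hac : a ≠ c) (hM : M b c = 2)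
    (ha : cs.IsRightDescent u a) (hb : cs.IsRightDescent (u * cs.simple a) b)
    (hc : ¬ cs.IsRightDescent u c) : ¬ cs.IsRightDescent (u * cs.simple c) a := by
  intro h0
  have hbc : b ≠ c := by
    rintro rfl
    rw [M.diagonal] at hM
    omega
  have hca2 : M c a ≠ 2 := by
    intro h1
    rw [M.symmetric] at hM
    exact hab (h.mat c a b h1 hM)
  have hcc : cs.IsRightDescent (u * cs.simple c) c := by
    by_contra h1
    exact hc (cs.isRightDescent_iff_not_isRightDescent_mul.2 h1)
  have hu : u * cs.simple c * cs.simple c = u := cs.simple_mul_simple_cancel_right c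
  have e2 := h.r2 c a _ hac.symm hca2 hcc h0
  have e3 := h.r3 c a _ hac.symm hca2 hcc h0
  have e4 := h.r4 c a _ hac.symm hca2 hcc h0
  rw [hu] at e2 e3 e4
  -- e2 : c ∈ R(u a), e3 : a ∈ R(u a c), e4 : c ∈ R(u a c a)
  have f1 := h.r1 c b _ hbc.symm e2 hb
  have f2 := h.r1 a b _ hab e3 f1
  have f3 := h.k1 _ _ a b c rfl hab hac hbc e3 f1 f2 e4
  rw [M.symmetric] at f3
  exact hac (h.mat b a c f3 hM)

theorem lr (w : W) (i : S) : cs.IsLeftDescent w i ↔ cs.IsRightDescent w⁻¹ i :=
  cs.isRightDescent_inv_iff.symm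

theorem lrm (w : W) (a b : S) : cs.IsLeftDescent (cs.simple a * w) b ↔
    cs.IsRightDescent (w⁻¹ * cs.simple a) b := by
  rw [lr, mul_inv_rev, cs.inv_simple]

end aux

theorem t (k1 : KD1) (k2 : KD2) : Pool.Agent.Helper74.LL.K1 := by
  intro S W _ M cs hL
  obtain ⟨d1, -, d3, -⟩ := k2 S W M cs
  have h : RR cs := {
    mat := hL.mat
    r1 := fun i j w hij hi hj => (d1 i j hij (hL.fin i j) w hi hj).2.1
    r2 := fun i j w hij hM hi hj => ((d1 i j hij (hL.fin i j) w hi hj).2.2 (hL.big i j hij hM)).1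
    r3 := fun i j w hij hM hi hj =>
      ((d1 i j hij (hL.fin i j) w hi hj).2.2 (hL.big i j hij hM)).2.1
    r4 := fun i j w hij hM hi hj =>
      ((d1 i j hij (hL.fin i j) w hi hj).2.2 (hL.big i j hij hM)).2.2 }
  have sz : ∀ (a b c : S) (x z : W), a ≠ c → b ≠ a → b ≠ c → XR cs {a, c} x →
      z ∈ par cs {a, c} → cs.IsRightDescent (x * z) b → cs.length z ≤ 2 := by
    intro a b c x z hac hba hbc hx hz hb
    by_contra hlen
    push Not at hlen
    obtain ⟨-, -, kd3, -⟩ := k1 S W M cs a c hac (hL.fin a c)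
    have key : ∀ p q : S, p ∈ ({a, c} : Set S) → q ∈ ({a, c} : Set S) → p ≠ q → b ≠ p → b ≠ q →
        (∀ z' ∈ par cs {a, c}, z' ≠ 1 → cs.IsRightDescent z' p ∨ cs.IsRightDescent z' q) →
        cs.IsRightDescent z p → False := by
      intro p q hp hq hpq hbp hbq hd hzp
      have hsp : cs.simple p ∈ par cs {a, c} := Subgroup.subset_closure ⟨p, hp, rfl⟩
      have hsq : cs.simple q ∈ par cs {a, c} := Subgroup.subset_closure ⟨q, hq, rfl⟩
      have m1 : z * cs.simple p ∈ par cs {a, c} := mul_mem hz hsp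
      have m2 : z * cs.simple p * cs.simple q ∈ par cs {a, c} := mul_mem m1 hsq
      have l1 := cs.isRightDescent_iff.1 hzp
      have n1 : z * cs.simple p ≠ 1 := by
        intro h0
        rw [h0, cs.length_one] at l1
        omega
      have g1 : cs.IsRightDescent (z * cs.simple p) q :=
        (hd _ m1 n1).resolve_left (cs.isRightDescent_iff_not_isRightDescent_mul.1 hzp)
      have l2 := cs.isRightDescent_iff.1 g1
      have n2 : z * cs.simple p * cs.simple q ≠ 1 := by
        intro h0
        rw [h0, cs.length_one] at l2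
        omega
      have g2 : cs.IsRightDescent (z * cs.simple p * cs.simple q) p :=
        (hd _ m2 n2).resolve_right (cs.isRightDescent_iff_not_isRightDescent_mul.1 g1)
      have f1 := (d3 _ x z p hx hz hp).2 hzp
      have f2 := (d3 _ x _ q hx m1 hq).2 g1
      have f3 := (d3 _ x _ p hx m2 hp).2 g2
      rw [← mul_assoc] at f2
      rw [← mul_assoc, ← mul_assoc] at f3
      exact h.sz_aux (x * z) p q b hpq hbp hbq f1 f2 f3 hb
    have ha : a ∈ ({a, c} : Set S) := Set.mem_insert _ _
    have hc : c ∈ ({a, c} : Set S) := Set.mem_insert_of_mem _ rfl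
    have hz1 : z ≠ 1 := by
      rintro rfl
      rw [cs.length_one] at hlen
      omega
    rcases ((kd3 z hz).2 hz1).1 with h0 | h0
    · exact key a c ha hc hac hba hbc (fun z' hz' hn => ((kd3 z' hz').2 hn).1) h0
    · exact key c a hc ha hac.symm hbc hba (fun z' hz' hn => ((kd3 z' hz').2 hn).1.symm) h0
  refine ⟨fun w a b c => h.k1 _ w a b c rfl, ?_, h.t3, ?_, h.cl1, ?_, sz, ?_, ?_,
    fun a b c u hab hac hM ha hb hc => h.car a b c u hab hac hM ha hb hc⟩
  · intro w a b c hab hac hbc ha hb hab' hac'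
    rw [lr] at ha hb
    rw [lrm] at hab' hac'
    exact h.k1 _ w⁻¹ a b c rfl hab hac hbc ha hb hab' hac'
  · intro w a b c hab hac hbc ha hb hc
    rw [lr] at ha hb hc
    exact h.t3 w⁻¹ a b c hab hac hbc ha hb hc
  · intro w a b c hca hcb ha hb hc
    rw [lr] at ha hc
    rw [lrm] at hb
    exact h.cl1 w⁻¹ a b c hca hcb ha hb hc
  · intro a b c y z hac hba hbc hy hz hb
    have hx : XR cs {a, c} y⁻¹ := by
      intro i hi
      have h1 := hy i hi
      rw [← cs.length_inv, mul_inv_rev, cs.inv_simple] at h1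
      rw [h1, cs.length_inv]
    rw [lr, mul_inv_rev] at hb
    have h1 := sz a b c y⁻¹ z⁻¹ hac hba hbc hx (inv_mem hz) hb
    rwa [cs.length_inv] at h1
  · intro a b c u hab hac hM ha hb hc
    rw [lr] at ha hc
    rw [lrm] at hb ⊢
    exact h.car a b c u⁻¹ hab hac hM ha hb hc

end Pool.Agent.Helper16.LL.K1
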